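import Pool.Agent.helper93.PX.Spec

/-!
# Row px:OC
-/

set_option autoImplicit false

namespace Pool.Agent.PX

theorem OC_aux (hOA : OA_stmt) (hOB : OB_stmt) (b : ℕ → ℝ) (m : ℝ) (hm : 1 < m)
    (hb : ∀ n, m ≤ b n) (p : ℕ) : ∀ s t : ℝ, 1 ≤ s → s < t → t ≤ m →
    ∃ s' t' : ℝ, s ≤ s' ∧ s' < t' ∧ t' ≤ t ∧ ∀ c : ℝ, s' < c → c < t' →
      ∀ j : ℕ, j < p → ∃ n : ℕ, 1 ≤ n ∧ 1 ≤ orb b c j n := by
  induction p with
  | zero =>
    intro s t _ hst _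
    exact ⟨s, t, le_rfl, hst, le_rfl, fun c _ _ j hj => absurd hj (Nat.not_lt_zero j)⟩
  | succ p ih =>
    intro s t hs hst ht
    obtain ⟨s', t', h1, h2, h3, h4⟩ := ih s t hs hst ht
    obtain ⟨c₀, h5, h6, n, hn, h7⟩ := hOA b m hm hb p s' t' (hs.trans h1) h2 (h3.trans ht)
    have hc₀ : 1 < c₀ := lt_of_le_of_lt (hs.trans h1) h5
    obtain ⟨δ, hδ, h8⟩ := hOB b (fun n => lt_of_lt_of_le hm (hb n)) p c₀ hc₀ n
    refine ⟨max s' (c₀ - δ), c₀, h1.trans (le_max_left _ _), max_lt h5 (by linarith),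
      h6.le.trans h3, fun c hc1 hc2 j hj => ?_⟩
    have hc3 : s' < c := lt_of_le_of_lt (le_max_left _ _) hc1
    have hc4 : c₀ - δ < c := lt_of_le_of_lt (le_max_right _ _) hc1
    rcases Nat.lt_succ_iff_lt_or_eq.1 hj with hj' | hj'
    · exact h4 c hc3 (hc2.trans h6) j hj'
    · subst hj'
      exact ⟨n, hn, h7.trans (h8 c hc4 hc2.le)⟩

/-- **Row OC**. -/
theorem OC (hOA : OA_stmt) (hOB : OB_stmt) : OC_stmt := by
  intro b m hm hb p u hu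
  obtain ⟨s', t', h1, h2, h3, h4⟩ := OC_aux hOA hOB b m hm hb p 1 (min u m) le_rfl (lt_min hu hm)
    (min_le_right _ _)
  obtain ⟨c, hc1, hc2⟩ := exists_rat_btwn h2
  exact ⟨c, lt_of_le_of_lt h1 hc1, lt_of_lt_of_le hc2 (h3.trans (min_le_left _ _)),
    lt_of_lt_of_le hc2 (h3.trans (min_le_right _ _)), h4 c hc1 hc2⟩

end Pool.Agent.PX
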